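import Mathlib

/-!
A labelling of the positions of a cycle with `q` labels such that every position sees a hub of
both kinds: a hub of kind `c` is a position with label `c` followed by two low labels.
-/

namespace Pool.Agent.H74.EV

open Finset

variable {n q : ℕ}

/-- The position `i` has label `c` and the next two positions have labels outside `{a, b}`. -/
def Hub [NeZero n] (a b c : Fin q) (f : Fin n → Fin q) (i : Fin n) : Prop :=
  f i = c ∧ (f (i + 1) ≠ a ∧ f (i + 1) ≠ b) ∧ (f (i + 2) ≠ a ∧ f (i + 2) ≠ b)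

instance [NeZero n] (a b c : Fin q) (f : Fin n → Fin q) : DecidablePred (Hub a b c f) := by
  intro i
  unfold Hub
  infer_instance

/-- the three positions of `i` -/
def trip [NeZero n] (i : Fin n) : Finset (Fin n) := {i, i + 1, i + 2}

theorem Hub.congr [NeZero n] {a b c : Fin q} {f g : Fin n → Fin q} {i : Fin n}
    (h : ∀ j ∈ trip i, f j = g j) : Hub a b c f i ↔ Hub a b c g i := by
  have h0 := h i (by simp [trip])
  have h1 := h (i + 1) (by simp [trip])
  have h2 := h (i + 2) (by simp [trip])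
  unfold Hub
  rw [h0, h1, h2]

theorem fin_add_ne [NeZero n] (hn : 3 ≤ n) (i : Fin n) :
    i + 1 ≠ i ∧ i + 2 ≠ i ∧ i + 1 ≠ i + 2 := by
  have h1 : (1 : Fin n) ≠ 0 := by
    intro h
    have := congrArg Fin.val h
    rw [Fin.val_one', Fin.val_zero, Nat.mod_eq_of_lt (by omega)] at this
    omega
  have h2 : (2 : Fin n).val = 2 := by
    have : (2 : Fin n) = Fin.ofNat n 2 := rfl
    rw [this, Fin.val_ofNat, Nat.mod_eq_of_lt (by omega)]
  have h3 : (2 : Fin n) ≠ 0 := by
    intro h
    have := congrArg Fin.val h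
    rw [h2, Fin.val_zero] at this
    omega
  have h4 : (1 : Fin n) ≠ 2 := by
    intro h
    have := congrArg Fin.val h
    rw [h2, Fin.val_one', Nat.mod_eq_of_lt (by omega)] at this
    omega
  exact ⟨fun h => h1 (by simpa using h), fun h => h3 (by simpa using h),
    fun h => h4 (by simpa using h)⟩

/-- Changing the labels at the three positions of `i`. -/
def upd [NeZero n] (i : Fin n) (c x y : Fin q) (f : Fin n → Fin q) : Fin n → Fin q :=
  fun j => if j = i then c else if j = i + 1 then x else if j = i + 2 then y else f j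

theorem upd_off [NeZero n] {i : Fin n} {c x y : Fin q} {f : Fin n → Fin q} {j : Fin n}
    (hj : j ∉ trip i) : upd i c x y f j = f j := by
  simp only [trip, mem_insert, mem_singleton, not_or] at hj
  simp [upd, hj.1, hj.2.1, hj.2.2]

/-- The labels outside `{a, b}`. -/
def low (a b : Fin q) : Finset (Fin q) := univ.filter (fun x => x ≠ a ∧ x ≠ b)

theorem card_low {a b : Fin q} (hab : a ≠ b) : (low a b).card + 2 = q := by
  have h1 : low a b = univ \ {a, b} := by
    ext x
    simp [low, not_or]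
  have h2 : ({a, b} : Finset (Fin q)).card = 2 := card_pair hab
  have h3 := card_sdiff_add_card_eq_card (subset_univ ({a, b} : Finset (Fin q)))
  rw [← h1, h2, card_univ, Fintype.card_fin] at h3
  exact h3

/-- The basic count. -/
theorem count_step [NeZero n] (hn : 3 ≤ n) {a b : Fin q} (hab : a ≠ b) (c : Fin q) (i : Fin n)
    (A : Finset (Fin n → Fin q))
    (hA : ∀ f ∈ A, ∀ x y : Fin q, upd i c x y f ∈ A) :
    A.card * (q - 2) ^ 2 ≤ q ^ 3 * (A.filter (fun f => Hub a b c f i)).card := by
  obtain ⟨hi1, hi2, hi3⟩ := fin_add_ne hn i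
  have h1 : (low a b).card = q - 2 := by
    have := card_low hab
    omega
  have h2 : (A ×ˢ (low a b ×ˢ low a b)).card = A.card * (q - 2) ^ 2 := by
    rw [card_product, card_product, h1, sq]
  rw [← h2]
  let Φ : (Fin n → Fin q) × (Fin q × Fin q) → (Fin n → Fin q) :=
    fun p => upd i c p.2.1 p.2.2 p.1
  have hsub : (A ×ˢ (low a b ×ˢ low a b)).image Φ ⊆ A.filter (fun f => Hub a b c f i) := by
    intro g hg
    obtain ⟨⟨f, x, y⟩, hp, rfl⟩ := mem_image.1 hg
    rw [mem_product, mem_product] at hp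
    obtain ⟨hf, hx, hy⟩ := hp
    rw [mem_filter]
    refine ⟨hA f hf x y, ?_⟩
    simp only [low, mem_filter, mem_univ, true_and] at hx hy
    refine ⟨?_, ?_, ?_⟩
    · simp [Φ, upd]
    · have : Φ (f, x, y) (i + 1) = x := by simp [Φ, upd, hi1]
      rw [this]
      exact hx
    · have : Φ (f, x, y) (i + 2) = y := by simp [Φ, upd, hi2, Ne.symm hi3]
      rw [this]
      exact hy
  refine (card_le_mul_card_image (f := Φ) _ (q ^ 3) ?_).trans
    (Nat.mul_le_mul_left _ (card_le_card hsub))
  intro g _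
  have h3 : ((univ : Finset (Fin q × Fin q × Fin q))).card = q ^ 3 := by
    rw [card_univ, Fintype.card_prod, Fintype.card_prod, Fintype.card_fin]
    ring
  rw [← h3]
  apply card_le_card_of_injOn (fun p => (p.1 i, p.1 (i + 1), p.1 (i + 2)))
    (fun _ _ => mem_coe.2 (mem_univ _))
  rintro ⟨f, x, y⟩ hp ⟨f', x', y'⟩ hp' heq
  simp only [coe_filter, mem_product, Set.mem_ofPred_eq] at hp hp'
  simp only [Prod.mk.injEq] at heq
  have e1 := hp.2
  have e2 := hp'.2
  have key : ∀ j, Φ (f, x, y) j = Φ (f', x', y') j := fun j => by rw [e1, e2]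
  have hx : x = x' := by
    have := key (i + 1)
    simpa [Φ, upd, hi1] using this
  have hy : y = y' := by
    have := key (i + 2)
    simpa [Φ, upd, hi2, Ne.symm hi3] using this
  have hf : f = f' := by
    funext j
    by_cases h4 : j = i
    · rw [h4]; exact heq.1
    by_cases h5 : j = i + 1
    · rw [h5]; exact heq.2.1
    by_cases h6 : j = i + 2
    · rw [h6]; exact heq.2.2
    have := key j
    simpa [Φ, upd, h4, h5, h6] using this
  rw [hf, hx, hy]

/-- The labellings without a hub of kind `c` in `T`. -/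
theorem count_none [NeZero n] (hn : 3 ≤ n) {a b : Fin q} (hab : a ≠ b) (c : Fin q)
    (T : Finset (Fin n)) (hT : ∀ i ∈ T, ∀ j ∈ T, i ≠ j → Disjoint (trip i) (trip j)) :
    ((univ.filter (fun f : Fin n → Fin q => ∀ i ∈ T, ¬ Hub a b c f i)).card : ℝ) ≤
      (1 - ((q : ℝ) - 2) ^ 2 / (q : ℝ) ^ 3) ^ T.card * (q : ℝ) ^ n := by
  have hq2 : 2 ≤ q := by
    have := card_low hab
    omega
  have hq : (0 : ℝ) < (q : ℝ) ^ 3 := by
    have : (0 : ℝ) < q := by exact_mod_cast (by omega : 0 < q)
    positivity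
  have hq' : (2 : ℝ) ≤ q := by exact_mod_cast hq2
  have hrho : 0 ≤ 1 - ((q : ℝ) - 2) ^ 2 / (q : ℝ) ^ 3 := by
    rw [sub_nonneg, div_le_one hq]
    nlinarith [sq_nonneg ((q : ℝ) - 2), mul_nonneg (by linarith : (0 : ℝ) ≤ q - 1) (sq_nonneg (q : ℝ))]
  induction T using Finset.induction_on with
  | empty => simp
  | insert i T hi ih =>
    have ih' := ih (fun x hx y hy => hT x (mem_insert_of_mem hx) y (mem_insert_of_mem hy))
    set A : Finset (Fin n → Fin q) := univ.filter (fun f => ∀ j ∈ T, ¬ Hub a b c f j) with hA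
    have hinv : ∀ f ∈ A, ∀ x y : Fin q, upd i c x y f ∈ A := by
      intro f hf x y
      rw [hA, mem_filter] at hf ⊢
      refine ⟨mem_univ _, ?_⟩
      intro j hj
      have hd : Disjoint (trip i) (trip j) := hT i (mem_insert_self _ _) j
        (mem_insert_of_mem hj) (fun h => hi (h ▸ hj))
      rw [Hub.congr (f := upd i c x y f) (g := f)]
      · exact hf.2 j hj
      · intro k hk
        exact upd_off (fun h => (Finset.disjoint_left.1 hd h) hk)
    have h1 := count_step hn hab c i A hinv
    have h2 : (univ.filter (fun f : Fin n → Fin q => ∀ j ∈ insert i T, ¬ Hub a b c f j)) =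
        A.filter (fun f => ¬ Hub a b c f i) := by
      ext f
      simp only [hA, mem_filter, mem_univ, true_and, mem_insert, forall_eq_or_imp]
      tauto
    have h3 := card_filter_add_card_filter_not (s := A) (fun f => Hub a b c f i)
    rw [h2, card_insert_of_notMem hi, pow_succ]
    have h4 : (A.card : ℝ) * ((q : ℝ) - 2) ^ 2 ≤
        (q : ℝ) ^ 3 * ((A.filter (fun f => Hub a b c f i)).card : ℝ) := by
      have : ((q - 2 : ℕ) : ℝ) = (q : ℝ) - 2 := by
        rw [Nat.cast_sub hq2]; norm_num
      rw [← this]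
      exact_mod_cast h1
    have h5 : ((A.filter (fun f => Hub a b c f i)).card : ℝ) +
        ((A.filter (fun f => ¬ Hub a b c f i)).card : ℝ) = A.card := by exact_mod_cast h3
    have h6 : (A.card : ℝ) * (((q : ℝ) - 2) ^ 2 / (q : ℝ) ^ 3) ≤
        ((A.filter (fun f => Hub a b c f i)).card : ℝ) := by
      rw [← mul_div_assoc, div_le_iff₀ hq]
      linarith
    calc ((A.filter (fun f => ¬ Hub a b c f i)).card : ℝ)
        ≤ (1 - ((q : ℝ) - 2) ^ 2 / (q : ℝ) ^ 3) * A.card := by linarith
      _ ≤ (1 - ((q : ℝ) - 2) ^ 2 / (q : ℝ) ^ 3) *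
          ((1 - ((q : ℝ) - 2) ^ 2 / (q : ℝ) ^ 3) ^ T.card * (q : ℝ) ^ n) :=
          mul_le_mul_of_nonneg_left ih' hrho
      _ = _ := by ring

end Pool.Agent.H74.EV
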