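import Mathlib
import Pool.Agent.H74.EV.Lab

/-!
Labellings in which every position sees many hubs of both kinds.
-/

namespace Pool.Agent.H74.EV

open Finset

variable {n q : ℕ}

/-- The number of hubs of kind `c` in `T`. -/
def hubs [NeZero n] (a b c : Fin q) (T : Finset (Fin n)) (f : Fin n → Fin q) : ℕ :=
  (T.filter (fun j => Hub a b c f j)).card

theorem hubs_upd [NeZero n] {a b c : Fin q} {T : Finset (Fin n)} {i : Fin n}
    (hT : ∀ j ∈ T, Disjoint (trip i) (trip j)) (c' x y : Fin q) (f : Fin n → Fin q) :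
    hubs a b c T (upd i c' x y f) = hubs a b c T f := by
  unfold hubs
  congr 1
  apply filter_congr
  intro j hj
  apply Hub.congr
  intro k hk
  exact upd_off (fun h => (Finset.disjoint_left.1 (hT j hj) h) hk)

theorem sum_hub [NeZero n] (hn : 3 ≤ n) {a b : Fin q} (hab : a ≠ b) (c : Fin q) (i : Fin n)
    (T : Finset (Fin n)) (hT : ∀ j ∈ T, Disjoint (trip i) (trip j)) :
    (((q : ℝ) - 2) ^ 2 / (q : ℝ) ^ 3) * ∑ f : Fin n → Fin q, (1 / 2 : ℝ) ^ hubs a b c T f ≤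
      ∑ f : Fin n → Fin q, if Hub a b c f i then (1 / 2 : ℝ) ^ hubs a b c T f else 0 := by
  have hq2 : 2 ≤ q := by
    have := card_low hab
    omega
  have hq : (0 : ℝ) < (q : ℝ) ^ 3 := by
    have : (0 : ℝ) < q := by exact_mod_cast (by omega : 0 < q)
    positivity
  have hmaps : ∀ f ∈ (univ : Finset (Fin n → Fin q)), hubs a b c T f ∈ range (T.card + 1) := by
    intro f _
    rw [mem_range]
    have : hubs a b c T f ≤ T.card := card_le_card (filter_subset _ _)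
    omega
  rw [← sum_fiberwise_of_maps_to hmaps (fun f => (1 / 2 : ℝ) ^ hubs a b c T f),
    ← sum_fiberwise_of_maps_to hmaps
      (fun f => if Hub a b c f i then (1 / 2 : ℝ) ^ hubs a b c T f else 0), mul_sum]
  apply sum_le_sum
  intro m _
  set A : Finset (Fin n → Fin q) := univ.filter (fun f => hubs a b c T f = m) with hA
  have hinv : ∀ f ∈ A, ∀ x y : Fin q, upd i c x y f ∈ A := by
    intro f hf x y
    rw [hA, mem_filter] at hf ⊢
    exact ⟨mem_univ _, by rw [hubs_upd hT]; exact hf.2⟩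
  have h1 := count_step hn hab c i A hinv
  have h2 : ∑ f ∈ A, (1 / 2 : ℝ) ^ hubs a b c T f = A.card * (1 / 2 : ℝ) ^ m := by
    rw [← nsmul_eq_mul, ← sum_const]
    apply sum_congr rfl
    intro f hf
    rw [(mem_filter.1 hf).2]
  have h3 : ∑ f ∈ A, (if Hub a b c f i then (1 / 2 : ℝ) ^ hubs a b c T f else 0) =
      (A.filter (fun f => Hub a b c f i)).card * (1 / 2 : ℝ) ^ m := by
    rw [← sum_filter, ← nsmul_eq_mul, ← sum_const]
    apply sum_congr rfl
    intro f hf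
    rw [(mem_filter.1 (mem_filter.1 hf).1).2]
  rw [h2, h3, ← mul_assoc]
  apply mul_le_mul_of_nonneg_right _ (by positivity)
  have h4 : (A.card : ℝ) * ((q : ℝ) - 2) ^ 2 ≤
      (q : ℝ) ^ 3 * ((A.filter (fun f => Hub a b c f i)).card : ℝ) := by
    have : ((q - 2 : ℕ) : ℝ) = (q : ℝ) - 2 := by
      rw [Nat.cast_sub hq2]; norm_num
    rw [← this]
    exact_mod_cast h1
  rw [div_mul_eq_mul_div, div_le_iff₀ hq]
  linarith

theorem sum_half [NeZero n] (hn : 3 ≤ n) {a b : Fin q} (hab : a ≠ b) (c : Fin q)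
    (T : Finset (Fin n)) (hT : ∀ i ∈ T, ∀ j ∈ T, i ≠ j → Disjoint (trip i) (trip j)) :
    ∑ f : Fin n → Fin q, (1 / 2 : ℝ) ^ hubs a b c T f ≤
      (1 - ((q : ℝ) - 2) ^ 2 / (q : ℝ) ^ 3 / 2) ^ T.card * (q : ℝ) ^ n := by
  have hq2 : 2 ≤ q := by
    have := card_low hab
    omega
  have hq : (0 : ℝ) < (q : ℝ) ^ 3 := by
    have : (0 : ℝ) < q := by exact_mod_cast (by omega : 0 < q)
    positivity
  have hq' : (2 : ℝ) ≤ q := by exact_mod_cast hq2
  have hp1 : ((q : ℝ) - 2) ^ 2 / (q : ℝ) ^ 3 ≤ 1 := by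
    rw [div_le_one hq]
    nlinarith [sq_nonneg ((q : ℝ) - 2), mul_nonneg (by linarith : (0 : ℝ) ≤ q - 1) (sq_nonneg (q : ℝ))]
  induction T using Finset.induction_on with
  | empty => simp [hubs]
  | insert i T hi ih =>
    have ih' := ih (fun x hx y hy => hT x (mem_insert_of_mem hx) y (mem_insert_of_mem hy))
    have hd : ∀ j ∈ T, Disjoint (trip i) (trip j) := fun j hj =>
      hT i (mem_insert_self _ _) j (mem_insert_of_mem hj) (fun h => hi (h ▸ hj))
    have h1 := sum_hub hn hab c i T hd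
    have h2 : ∀ f : Fin n → Fin q, (1 / 2 : ℝ) ^ hubs a b c (insert i T) f =
        (1 / 2 : ℝ) ^ hubs a b c T f -
          (1 / 2) * (if Hub a b c f i then (1 / 2 : ℝ) ^ hubs a b c T f else 0) := by
      intro f
      unfold hubs
      rw [filter_insert]
      by_cases h : Hub a b c f i
      · rw [if_pos h, if_pos h, card_insert_of_notMem (fun h' => hi (mem_filter.1 h').1),
          pow_succ]
        ring
      · rw [if_neg h, if_neg h]
        ring
    rw [sum_congr rfl (fun f _ => h2 f), sum_sub_distrib, ← mul_sum,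
      card_insert_of_notMem hi, pow_succ]
    set S := ∑ f : Fin n → Fin q, (1 / 2 : ℝ) ^ hubs a b c T f with hS
    calc S - 1 / 2 * ∑ f : Fin n → Fin q,
          (if Hub a b c f i then (1 / 2 : ℝ) ^ hubs a b c T f else 0)
        ≤ (1 - ((q : ℝ) - 2) ^ 2 / (q : ℝ) ^ 3 / 2) * S := by linarith
      _ ≤ (1 - ((q : ℝ) - 2) ^ 2 / (q : ℝ) ^ 3 / 2) *
          ((1 - ((q : ℝ) - 2) ^ 2 / (q : ℝ) ^ 3 / 2) ^ T.card * (q : ℝ) ^ n) :=
          mul_le_mul_of_nonneg_left ih' (by linarith)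
      _ = _ := by ring

theorem count_few [NeZero n] (hn : 3 ≤ n) {a b : Fin q} (hab : a ≠ b) (c : Fin q)
    (T : Finset (Fin n)) (hT : ∀ i ∈ T, ∀ j ∈ T, i ≠ j → Disjoint (trip i) (trip j))
    (r t : ℕ) (ht : t ≤ T.card) :
    ((univ.filter (fun f : Fin n → Fin q => hubs a b c T f < r)).card : ℝ) ≤
      2 ^ r * (1 - ((q : ℝ) - 2) ^ 2 / (q : ℝ) ^ 3 / 2) ^ t * (q : ℝ) ^ n := by
  have hq2 : 2 ≤ q := by
    have := card_low hab
    omega
  have hq : (0 : ℝ) < (q : ℝ) ^ 3 := by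
    have : (0 : ℝ) < q := by exact_mod_cast (by omega : 0 < q)
    positivity
  have hq' : (2 : ℝ) ≤ q := by exact_mod_cast hq2
  have hp1 : ((q : ℝ) - 2) ^ 2 / (q : ℝ) ^ 3 ≤ 1 := by
    rw [div_le_one hq]
    nlinarith [sq_nonneg ((q : ℝ) - 2), mul_nonneg (by linarith : (0 : ℝ) ≤ q - 1) (sq_nonneg (q : ℝ))]
  have hp0 : 0 ≤ ((q : ℝ) - 2) ^ 2 / (q : ℝ) ^ 3 := by positivity
  set B := univ.filter (fun f : Fin n → Fin q => hubs a b c T f < r) with hB
  have h1 : (B.card : ℝ) * (1 / 2) ^ r ≤ ∑ f ∈ B, (1 / 2 : ℝ) ^ hubs a b c T f := by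
    rw [← nsmul_eq_mul, ← sum_const]
    apply sum_le_sum
    intro f hf
    exact pow_le_pow_of_le_one (by norm_num) (by norm_num) (mem_filter.1 hf).2.le
  have h2 : ∑ f ∈ B, (1 / 2 : ℝ) ^ hubs a b c T f ≤
      ∑ f : Fin n → Fin q, (1 / 2 : ℝ) ^ hubs a b c T f :=
    sum_le_sum_of_subset_of_nonneg (subset_univ _) (fun _ _ _ => by positivity)
  have h3 := sum_half hn hab c T hT
  have h4 : (1 - ((q : ℝ) - 2) ^ 2 / (q : ℝ) ^ 3 / 2) ^ T.card ≤
      (1 - ((q : ℝ) - 2) ^ 2 / (q : ℝ) ^ 3 / 2) ^ t :=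
    pow_le_pow_of_le_one (by linarith) (by linarith) ht
  have h5 : (B.card : ℝ) * (1 / 2) ^ r ≤
      (1 - ((q : ℝ) - 2) ^ 2 / (q : ℝ) ^ 3 / 2) ^ t * (q : ℝ) ^ n :=
    h1.trans (h2.trans (h3.trans (mul_le_mul_of_nonneg_right h4 (by positivity))))
  have h6 : (2 : ℝ) ^ r * (1 / 2) ^ r = 1 := by
    rw [← mul_pow]; norm_num
  calc (B.card : ℝ) = 2 ^ r * ((B.card : ℝ) * (1 / 2) ^ r) := by
        rw [mul_left_comm, h6, mul_one]
    _ ≤ 2 ^ r * ((1 - ((q : ℝ) - 2) ^ 2 / (q : ℝ) ^ 3 / 2) ^ t * (q : ℝ) ^ n) :=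
        mul_le_mul_of_nonneg_left h5 (by positivity)
    _ = _ := by ring

theorem exists_label_many [NeZero n] (hn : 3 ≤ n) {a b : Fin q} (hab : a ≠ b)
    (T : Fin n → Finset (Fin n)) (t r : ℕ)
    (hT : ∀ x, ∀ i ∈ T x, ∀ j ∈ T x, i ≠ j → Disjoint (trip i) (trip j))
    (ht : ∀ x, t ≤ (T x).card)
    (hnum : 2 * (n : ℝ) * (2 ^ r * (1 - ((q : ℝ) - 2) ^ 2 / (q : ℝ) ^ 3 / 2) ^ t) < 1) :
    ∃ f : Fin n → Fin q, (∀ x, r ≤ hubs a b a (T x) f) ∧ (∀ x, r ≤ hubs a b b (T x) f) := by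
  classical
  set ρ : ℝ := 2 ^ r * (1 - ((q : ℝ) - 2) ^ 2 / (q : ℝ) ^ 3 / 2) ^ t with hρ
  have hq2 : 2 ≤ q := by
    have := card_low hab
    omega
  have hQ : (0 : ℝ) < (q : ℝ) ^ n := by
    have : (0 : ℝ) < q := by exact_mod_cast (by omega : 0 < q)
    positivity
  let bad : Fin q → Finset (Fin n → Fin q) := fun c =>
    univ.biUnion (fun x : Fin n => univ.filter (fun f : Fin n → Fin q => hubs a b c (T x) f < r))
  have hbad : ∀ c, ((bad c).card : ℝ) ≤ n * ρ * (q : ℝ) ^ n := by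
    intro c
    have h1 : (bad c).card ≤ ∑ x : Fin n,
        (univ.filter (fun f : Fin n → Fin q => hubs a b c (T x) f < r)).card :=
      card_biUnion_le
    have h2 : ((bad c).card : ℝ) ≤ ∑ x : Fin n,
        ((univ.filter (fun f : Fin n → Fin q => hubs a b c (T x) f < r)).card : ℝ) := by
      exact_mod_cast h1
    refine h2.trans ?_
    calc ∑ x : Fin n, ((univ.filter (fun f : Fin n → Fin q => hubs a b c (T x) f < r)).card : ℝ)
        ≤ ∑ x : Fin n, ρ * (q : ℝ) ^ n := by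
          apply Finset.sum_le_sum
          intro x _
          exact count_few hn hab c (T x) (hT x) r t (ht x)
      _ = n * ρ * (q : ℝ) ^ n := by
          rw [Finset.sum_const, card_univ, Fintype.card_fin, nsmul_eq_mul]
          ring
  have h4 : ((bad a ∪ bad b).card : ℝ) < (q : ℝ) ^ n := by
    have h6 : ((bad a ∪ bad b).card : ℝ) ≤ (bad a).card + (bad b).card := by
      exact_mod_cast card_union_le _ _
    have h7 := hbad a
    have h8 := hbad b
    have h9 : 2 * (n : ℝ) * ρ * (q : ℝ) ^ n < 1 * (q : ℝ) ^ n :=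
      mul_lt_mul_of_pos_right hnum hQ
    linarith
  have h10 : ((univ : Finset (Fin n → Fin q)).card : ℝ) = (q : ℝ) ^ n := by
    rw [card_univ, Fintype.card_fun, Fintype.card_fin, Fintype.card_fin]
    push_cast
    rfl
  have h11 : ∃ f, f ∉ bad a ∪ bad b := by
    by_contra hcon
    push Not at hcon
    have : (univ : Finset (Fin n → Fin q)) ⊆ bad a ∪ bad b := fun f _ => hcon f
    have h12 := card_le_card this
    have h13 : ((univ : Finset (Fin n → Fin q)).card : ℝ) ≤ ((bad a ∪ bad b).card : ℝ) := by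
      exact_mod_cast h12
    rw [h10] at h13
    linarith
  obtain ⟨f, hf⟩ := h11
  simp only [mem_union, not_or] at hf
  refine ⟨f, ?_, ?_⟩
  · intro x
    by_contra hcon
    push Not at hcon
    apply hf.1
    exact mem_biUnion.2 ⟨x, mem_univ _, mem_filter.2 ⟨mem_univ _, hcon⟩⟩
  · intro x
    by_contra hcon
    push Not at hcon
    apply hf.2
    exact mem_biUnion.2 ⟨x, mem_univ _, mem_filter.2 ⟨mem_univ _, hcon⟩⟩

end Pool.Agent.H74.EV
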