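import Mathlib

/-!
A digraph with `N` vertices and all outdegrees at least `r` has a non-empty set of at most
`2 N / (r + 1) + 2` vertices in which every vertex has an out-neighbour (Chvatal, Szemeredi).
-/

namespace Pool.Agent.H74.EV

open Finset

variable {α : Type} [DecidableEq α]

/-- Following out-neighbours from `y` inside `W` until the set `X` of dead ends is met. -/
theorem follow (R : α → α → Prop) (W : Finset α) (y : α) (hy : y ∈ W) (X : Finset α)
    (hX : ∀ x ∈ W, x ∉ X → ∃ z ∈ W, R x z) :
    (∃ W' ⊆ W, W'.Nonempty ∧ ∀ x ∈ W', ∃ z ∈ W', R x z) ∨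
    (∃ W' ⊆ W, y ∈ W' ∧ ∃ x0 ∈ W', x0 ∈ X ∧ ∀ x ∈ W', x = x0 ∨ ∃ z ∈ W', R x z) := by
  classical
  have hg0 : ∀ x : α, ∃ z : α, x ∈ W → x ∉ X → z ∈ W ∧ R x z := by
    intro x
    by_cases h : x ∈ W ∧ x ∉ X
    · obtain ⟨z, hz⟩ := hX x h.1 h.2
      exact ⟨z, fun _ _ => hz⟩
    · exact ⟨x, fun h1 h2 => absurd ⟨h1, h2⟩ h⟩
  choose g hg using hg0
  by_cases hdead : ∃ m : ℕ, g^[m] y ∈ X
  · right
    set m := Nat.find hdead with hm
    have hm1 : g^[m] y ∈ X := Nat.find_spec hdead
    have hm2 : ∀ k < m, g^[k] y ∉ X := fun k hk => Nat.find_min hdead hk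
    have hin : ∀ k ≤ m, g^[k] y ∈ W := by
      intro k
      induction k with
      | zero => intro _; exact hy
      | succ k ih =>
        intro hk
        rw [Function.iterate_succ_apply']
        exact (hg _ (ih (by omega)) (hm2 k (by omega))).1
    refine ⟨(range (m + 1)).image (fun k => g^[k] y), ?_, ?_, g^[m] y, ?_, hm1, ?_⟩
    · intro x hx
      obtain ⟨k, hk, rfl⟩ := mem_image.1 hx
      rw [mem_range] at hk
      exact hin k (by omega)
    · exact mem_image.2 ⟨0, by simp, rfl⟩
    · exact mem_image.2 ⟨m, by simp, rfl⟩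
    · intro x hx
      obtain ⟨k, hk, rfl⟩ := mem_image.1 hx
      rw [mem_range] at hk
      by_cases hkm : k = m
      · left; rw [hkm]
      · right
        refine ⟨g^[k + 1] y, mem_image.2 ⟨k + 1, by rw [mem_range]; omega, rfl⟩, ?_⟩
        rw [Function.iterate_succ_apply']
        exact (hg _ (hin k (by omega)) (hm2 k (by omega))).2
  · left
    push Not at hdead
    have hin : ∀ k, g^[k] y ∈ W := by
      intro k
      induction k with
      | zero => exact hy
      | succ k ih =>
        rw [Function.iterate_succ_apply']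
        exact (hg _ ih (hdead k)).1
    refine ⟨W.filter (fun x => ∃ k : ℕ, g^[k] y = x), filter_subset _ _,
      ⟨y, mem_filter.2 ⟨hy, 0, rfl⟩⟩, ?_⟩
    intro x hx
    obtain ⟨_, k, rfl⟩ := mem_filter.1 hx
    refine ⟨g^[k + 1] y, mem_filter.2 ⟨hin _, k + 1, rfl⟩, ?_⟩
    rw [Function.iterate_succ_apply']
    exact (hg _ (hin k) (hdead k)).2

theorem exists_short (r : ℕ) (hr : 1 ≤ r) : ∀ (m : ℕ) (V : Finset α) (R : α → α → Prop),
    V.card ≤ m → V.Nonempty →
    (∀ x ∈ V, ∃ S ⊆ V, r ≤ S.card ∧ ∀ y ∈ S, R x y) →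
    ∃ W ⊆ V, W.Nonempty ∧ W.card * (r + 1) ≤ 2 * V.card + 2 * (r + 1) ∧
      ∀ x ∈ W, ∃ z ∈ W, R x z := by
  classical
  intro m
  induction m with
  | zero =>
    intro V R hV hne _
    exact absurd (card_pos.2 hne) (by omega)
  | succ m ih =>
    intro V R hV hne hout
    -- a vertex with indegree at least r
    have hsum : ∑ x ∈ V, (V.filter (fun y => R x y)).card =
        ∑ y ∈ V, (V.filter (fun x => R x y)).card := by
      simp_rw [card_filter]
      exact sum_comm
    have hout' : ∀ x ∈ V, r ≤ (V.filter (fun y => R x y)).card := by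
      intro x hx
      obtain ⟨S, hS, hc, hR⟩ := hout x hx
      refine hc.trans (card_le_card ?_)
      intro y hy
      exact mem_filter.2 ⟨hS hy, hR y hy⟩
    obtain ⟨v, hv, hin⟩ : ∃ v ∈ V, r ≤ (V.filter (fun x => R x v)).card := by
      by_contra hcon
      push Not at hcon
      have h1 : ∑ y ∈ V, (V.filter (fun x => R x y)).card < ∑ y ∈ V, r :=
        sum_lt_sum_of_nonempty hne hcon
      have h2 : ∑ y ∈ V, r ≤ ∑ x ∈ V, (V.filter (fun y => R x y)).card := sum_le_sum hout'
      omega
    set A := V.filter (fun x => R x v) with hA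
    set B := V.filter (fun y => R v y) with hB
    have hBr : r ≤ B.card := hout' v hv
    have hAV : A ⊆ V := filter_subset _ _
    have hBV : B ⊆ V := filter_subset _ _
    have hRA : ∀ x ∈ A, R x v := fun x hx => (mem_filter.1 hx).2
    have hRB : ∀ y ∈ B, R v y := fun y hy => (mem_filter.1 hy).2
    by_cases hloop : R v v
    · refine ⟨{v}, by simpa using hv, ⟨v, by simp⟩, ?_, ?_⟩
      · rw [card_singleton]; omega
      · intro x hx
        rw [mem_singleton] at hx
        subst hx
        exact ⟨x, by simp, hloop⟩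
    have hvA : v ∉ A := fun h => hloop (hRA v h)
    have hvB : v ∉ B := fun h => hloop (hRB v h)
    have hVr : r + 1 ≤ V.card := by
      have h1 : insert v B ⊆ V := insert_subset hv hBV
      have h2 := card_le_card h1
      rw [card_insert_of_notMem hvB] at h2
      omega
    by_cases h2c : ∃ b, b ∈ B ∧ b ∈ A
    · obtain ⟨b, hb1, hb2⟩ := h2c
      refine ⟨{v, b}, ?_, ⟨v, by simp⟩, ?_, ?_⟩
      · intro x hx
        rw [mem_insert, mem_singleton] at hx
        rcases hx with rfl | rfl
        · exact hv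
        · exact hBV hb1
      · have : ({v, b} : Finset α).card ≤ 2 := card_le_two
        nlinarith
      · intro x hx
        rw [mem_insert, mem_singleton] at hx
        rcases hx with rfl | rfl
        · exact ⟨b, by simp, hRB b hb1⟩
        · exact ⟨v, by simp, hRA _ hb2⟩
    push Not at h2c
    by_cases h3c : ∃ b ∈ B, ∃ u ∈ A, R b u
    · obtain ⟨b, hb, u, hu, hbu⟩ := h3c
      refine ⟨{v, b, u}, ?_, ⟨v, by simp⟩, ?_, ?_⟩
      · intro x hx
        simp only [mem_insert, mem_singleton] at hx
        rcases hx with rfl | rfl | rfl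
        · exact hv
        · exact hBV hb
        · exact hAV hu
      · have : ({v, b, u} : Finset α).card ≤ 3 := card_le_three
        nlinarith
      · intro x hx
        simp only [mem_insert, mem_singleton] at hx
        rcases hx with rfl | rfl | rfl
        · exact ⟨b, by simp, hRB b hb⟩
        · exact ⟨u, by simp, hbu⟩
        · exact ⟨v, by simp, hRA _ hu⟩
    push Not at h3c
    -- contraction
    set V' := V \ (insert v A) with hV'
    have hBV' : B ⊆ V' := by
      intro y hy
      rw [hV', mem_sdiff, mem_insert]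
      refine ⟨hBV hy, ?_⟩
      rintro (rfl | h)
      · exact hvB hy
      · exact h2c y hy h
    have hV'c : V'.card + (r + 1) ≤ V.card := by
      have h1 : insert v A ⊆ V := insert_subset hv hAV
      have h2 := card_sdiff_add_card_eq_card h1
      rw [← hV', card_insert_of_notMem hvA] at h2
      omega
    have hB0 : B.Nonempty := card_pos.1 (by omega)
    obtain ⟨W, hW1, hW2, hW3, hW4⟩ := ih V' (fun x y => R x y ∨ ((∃ u ∈ A, R x u) ∧ y ∈ B))
      (by omega) (hB0.mono hBV') (by
        intro x hx
        rw [hV', mem_sdiff, mem_insert, not_or] at hx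
        by_cases hu : ∃ u ∈ A, R x u
        · exact ⟨B, hBV', hBr, fun y hy => Or.inr ⟨hu, hy⟩⟩
        · push Not at hu
          refine ⟨V.filter (fun y => R x y), ?_, hout' x hx.1, fun y hy =>
            Or.inl (mem_filter.1 hy).2⟩
          intro y hy
          rw [mem_filter] at hy
          rw [hV', mem_sdiff, mem_insert, not_or]
          refine ⟨hy.1, ?_, ?_⟩
          · rintro rfl
            exact hx.2.2 (mem_filter.2 ⟨hx.1, hy.2⟩)
          · intro h
            exact hu y h hy.2)
    have hWV : W ⊆ V := hW1.trans (by rw [hV']; exact sdiff_subset)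
    have hWc : W.card * (r + 1) ≤ 2 * V.card := by omega
    set X := W.filter (fun x => ¬ ∃ z ∈ W, R x z) with hX
    by_cases hX0 : X = ∅
    · refine ⟨W, hWV, hW2, by omega, ?_⟩
      intro x hx
      by_contra hcon
      have : x ∈ X := mem_filter.2 ⟨hx, hcon⟩
      rw [hX0] at this
      exact absurd this (notMem_empty _)
    obtain ⟨x1, hx1⟩ := nonempty_iff_ne_empty.2 hX0
    have hXA : ∀ x ∈ X, (∃ u ∈ A, R x u) ∧ ∃ y ∈ W, y ∈ B := by
      intro x hx
      rw [hX, mem_filter] at hx
      obtain ⟨z, hz, hz'⟩ := hW4 x hx.1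
      rcases hz' with h | h
      · exact absurd ⟨z, hz, h⟩ hx.2
      · exact ⟨h.1, z, hz, h.2⟩
    obtain ⟨_, y, hyW, hyB⟩ := hXA x1 hx1
    rcases follow R W y hyW X (fun x hx hxX => by
        by_contra hcon
        exact hxX (mem_filter.2 ⟨hx, hcon⟩)) with ⟨W', h1, h2, h3⟩ | ⟨W', h1, h2, x0, h3, h4, h5⟩
    · refine ⟨W', h1.trans hWV, h2, ?_, h3⟩
      have := card_le_card h1
      nlinarith
    · obtain ⟨⟨u, hu, hxu⟩, _⟩ := hXA x0 h4
      refine ⟨insert v (insert u W'), ?_, ⟨v, by simp⟩, ?_, ?_⟩
      · intro x hx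
        simp only [mem_insert] at hx
        rcases hx with rfl | rfl | hx
        · exact hv
        · exact hAV hu
        · exact hWV (h1 hx)
      · have h6 := card_insert_le v (insert u W')
        have h7 := card_insert_le u W'
        have h8 := card_le_card h1
        nlinarith
      · intro x hx
        simp only [mem_insert] at hx
        rcases hx with rfl | rfl | hx
        · exact ⟨y, by simp [h2], hRB y hyB⟩
        · exact ⟨v, by simp, hRA _ hu⟩
        · rcases h5 x hx with rfl | ⟨z, hz, hz'⟩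
          · exact ⟨u, by simp, hxu⟩
          · exact ⟨z, by simp [hz], hz'⟩

end Pool.Agent.H74.EV
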