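import Mathlib
import Pool.Agent.H10.EP.Cyc
import Pool.Agent.H74.EV.Many
import Pool.Agent.H74.EV.Short

/-!
From the labelling to a 2-factor with an even number of cycles.
-/

namespace Pool.Agent.H74.EV

open Equiv Equiv.Perm Pool.Agent.H47.TCF Pool.Agent.H10.EP

variable {n q : ℕ}

theorem nx_pow [NeZero n] (k : ℕ) (x : Fin n) : ((nx n) ^ k) x = x + Fin.ofNat n k := by
  induction k with
  | zero =>
    have : Fin.ofNat n 0 = 0 := by apply Fin.ext; simp
    rw [this, add_zero, pow_zero, one_apply]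
  | succ k ih =>
    rw [pow_succ', mul_apply, ih, nx_apply, add_assoc]
    congr 1
    apply Fin.ext
    simp [Fin.val_add]

theorem exists_nx_pow [NeZero n] (x y : Fin n) : ∃ k : ℕ, ((nx n) ^ k) x = y := by
  refine ⟨(y - x).val, ?_⟩
  have h2 : Fin.ofNat n (y - x).val = y - x := by
    apply Fin.ext
    rw [Fin.val_ofNat, Nat.mod_eq_of_lt (y - x).isLt]
  rw [nx_pow, h2, add_sub_cancel]

/-- A closed set of hubs gives a 2-factor with an even number of cycles. -/
theorem even_factor [NeZero n] (hn : 3 ≤ n) (G : SimpleGraph (Fin n)) (v : Fin n ≃ Fin n)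
    (hv : ∀ k, G.Adj (v k) (v (k + 1))) {a b : Fin q} (f : Fin n → Fin q)
    (V : Finset (Fin n)) (hV : V.Nonempty) (hhub : ∀ i ∈ V, Hub a b a f i ∨ Hub a b b f i)
    (hout : ∀ i ∈ V, ∃ j ∈ V, G.Adj (v ((nx n).symm i)) (v j) ∧ (f i = a ↔ f j ≠ a)) :
    ∃ F : SimpleGraph (Fin n), F ≤ G ∧ (∀ x, (F.neighborSet x).ncard = 2) ∧
      Even (Nat.card F.ConnectedComponent) ∧ Nat.card F.ConnectedComponent ≤ V.card := by
  classical
  obtain ⟨w0, hw0⟩ := hV
  let W : Set (Fin n) := {i | i ∈ V}
  have hg0 : ∀ i : Fin n, ∃ j ∈ V, i ∈ V →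
      G.Adj (v ((nx n).symm i)) (v j) ∧ (f i = a ↔ f j ≠ a) := by
    intro i
    by_cases hi : i ∈ V
    · obtain ⟨j, hj, h⟩ := hout i hi
      exact ⟨j, hj, fun _ => h⟩
    · exact ⟨w0, hw0, fun h => absurd h hi⟩
  choose g hgV hg using hg0
  have hW : ∀ x, g x ∈ W := hgV
  have hcol : ∀ x ∈ W, (fun y => decide (f y = a)) (g x) ≠ (fun y => decide (f y = a)) x := by
    intro x hx
    have h1 := (hg x hx).2
    by_cases h2 : f x = a
    · simp [h2, h1.1 h2]
    · have h3 : f (g x) = a := by
        by_contra h4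
        exact h2 (h1.2 h4)
      simp [h2, h3]
  obtain ⟨ρ, hsign, hρ⟩ := exists_odd_perm g (fun y => decide (f y = a)) W hW hcol
  have hWlab : ∀ i ∈ W, f i = a ∨ f i = b := by
    intro i hi
    rcases hhub i hi with h | h
    · exact Or.inl h.1
    · exact Or.inr h.1
  have hW1 : ∀ i ∈ W, i + 1 ∉ W := by
    intro i hi h1
    have h2 := hWlab _ h1
    rcases hhub i hi with h | h
    · exact h2.elim h.2.1.1 h.2.1.2
    · exact h2.elim h.2.1.1 h.2.1.2
  have hW2 : ∀ i ∈ W, i + 2 ∉ W := by
    intro i hi h1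
    have h2 := hWlab _ h1
    rcases hhub i hi with h | h
    · exact h2.elim h.2.2.1 h.2.2.2
    · exact h2.elim h.2.2.1 h.2.2.2
  have htwo : ∀ k : Fin n, k + 1 + 1 = k + 2 := by
    intro k
    rw [add_assoc]
    congr 1
    apply Fin.ext
    have h2 : (2 : Fin n) = Fin.ofNat n 2 := rfl
    rw [h2, Fin.val_add, Fin.val_one', Fin.val_ofNat, Nat.mod_eq_of_lt (a := 1) (by omega)]
  have hfix : ∀ x, x ∉ W → ρ x = x := fun x hx => (hρ x).resolve_right (fun h => hx h.1)
  have hmem : ∀ x, ρ x ≠ x → ρ x ∈ W ∧ x ∈ W ∧ ρ x = g x := by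
    intro x hx
    have h := (hρ x).resolve_left hx
    exact ⟨by rw [h.2]; exact hW x, h.1, h.2⟩
  set φ : Perm (Fin n) := ρ * nx n with hφ
  have hφa : ∀ k, φ k = ρ (k + 1) := fun k => by rw [hφ, mul_apply, nx_apply]
  have hG : ∀ k, G.Adj (v k) (v (φ k)) := by
    intro k
    rw [hφa]
    by_cases h : ρ (k + 1) = k + 1
    · rw [h]
      exact hv k
    · obtain ⟨_, h1, h2⟩ := hmem _ h
      rw [h2]
      have h3 := (hg (k + 1) h1).1
      have h0 : (nx n).symm (k + 1) = k := by
        rw [← nx_apply, Equiv.symm_apply_apply]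
      rwa [h0] at h3
  have h2 : ∀ k, φ (φ k) ≠ k := by
    intro k hk
    rw [hφa, hφa] at hk
    by_cases h : ρ (k + 1) = k + 1
    · rw [h, htwo] at hk
      by_cases h' : ρ (k + 2) = k + 2
      · rw [h'] at hk
        exact (fin_add_ne hn k).2.1 hk
      · obtain ⟨h3, h4, _⟩ := hmem _ h'
        rw [hk] at h3
        exact hW2 _ h3 h4
    · obtain ⟨h3, h4, _⟩ := hmem _ h
      by_cases h' : ρ (ρ (k + 1) + 1) = ρ (k + 1) + 1
      · rw [h'] at hk
        apply hW2 _ h3
        rw [← htwo, hk]
        exact h4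
      · exact hW1 _ h3 (hmem _ h').2.1
  obtain ⟨F, hF1, hF2, hF3⟩ := exists_twoFactor' G φ v hG h2
  refine ⟨F, hF1, hF2, ?_, ?_⟩
  · rw [hF3]
    have h3 := nc_parity ρ (nx n)
    rw [hsign, nc_nx, pow_one, ← hφ] at h3
    have h4 : (-1 : ℤˣ) ^ nc φ = 1 := by rw [h3]; decide
    exact (neg_one_pow_eq_one_iff_even (by decide)).1 h4
  · rw [hF3]
    have hex : ∀ y : Fin n, ∃ z, SameCycle φ y z ∧ z + 1 ∈ W := by
      intro y
      by_contra hcon
      push Not at hcon
      have h3 : ∀ k : ℕ, SameCycle φ y (((nx n) ^ k) y) := by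
        intro k
        induction k with
        | zero => exact SameCycle.refl _ _
        | succ k ih =>
          rw [pow_succ', mul_apply, nx_apply]
          have h4 := hfix _ (hcon _ ih)
          rw [← hφa] at h4
          rw [← h4, sameCycle_apply_right]
          exact ih
      obtain ⟨k, hk⟩ := exists_nx_pow y ((nx n).symm w0)
      have h5 := h3 k
      rw [hk] at h5
      apply hcon _ h5
      rw [← nx_apply, Equiv.apply_symm_apply]
      exact hw0
    let m : V → Quotient (SameCycle.setoid φ) := fun w => Quotient.mk _ ((nx n).symm w.1)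
    have hsurj : Function.Surjective m := by
      intro c
      induction c using Quotient.inductionOn with
      | h y =>
        obtain ⟨z, hz1, hz2⟩ := hex y
        refine ⟨⟨z + 1, hz2⟩, ?_⟩
        apply Quotient.sound
        have : (nx n).symm (z + 1) = z := by rw [← nx_apply, Equiv.symm_apply_apply]
        change SameCycle φ ((nx n).symm (z + 1)) y
        rw [this]
        exact hz1.symm
    unfold nc
    have h6 := Nat.card_le_card_of_surjective m hsurj
    refine h6.trans (le_of_eq ?_)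
    rw [Nat.card_eq_fintype_card, Fintype.card_coe]

/-- From a labelling with many hubs of both kinds in every neighbourhood. -/
theorem even_factor_of_many [NeZero n] (hn : 3 ≤ n) (G : SimpleGraph (Fin n)) (v : Fin n ≃ Fin n)
    (hv : ∀ k, G.Adj (v k) (v (k + 1))) {a b : Fin q} (hab : a ≠ b) (f : Fin n → Fin q)
    (T : Fin n → Finset (Fin n)) (hT : ∀ x, ∀ i ∈ T x, G.Adj (v x) (v i)) (r : ℕ) (hr : 1 ≤ r)
    (ha : ∀ x, r ≤ hubs a b a (T x) f) (hb : ∀ x, r ≤ hubs a b b (T x) f) :
    ∃ F : SimpleGraph (Fin n), F ≤ G ∧ (∀ x, (F.neighborSet x).ncard = 2) ∧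
      Even (Nat.card F.ConnectedComponent) ∧
      Nat.card F.ConnectedComponent * (r + 1) ≤ 2 * n + 2 * (r + 1) := by
  classical
  set H : Finset (Fin n) := Finset.univ.filter (fun i => Hub a b a f i ∨ Hub a b b f i) with hH
  have hHn : H.card ≤ n := by
    have := Finset.card_le_univ H
    rwa [Fintype.card_fin] at this
  have hne : H.Nonempty := by
    have h1 := ha 0
    unfold hubs at h1
    obtain ⟨i, hi⟩ := Finset.card_pos.1 (by omega : 0 < ((T 0).filter (fun j => Hub a b a f j)).card)
    exact ⟨i, Finset.mem_filter.2 ⟨Finset.mem_univ _, Or.inl (Finset.mem_filter.1 hi).2⟩⟩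
  obtain ⟨V, hV1, hV2, hV3, hV4⟩ := exists_short r hr n H
    (fun i j => G.Adj (v ((nx n).symm i)) (v j) ∧ (f i = a ↔ f j ≠ a)) hHn hne (by
      intro i _
      by_cases hi : f i = a
      · refine ⟨(T ((nx n).symm i)).filter (fun j => Hub a b b f j), ?_, hb _, ?_⟩
        · intro j hj
          exact Finset.mem_filter.2 ⟨Finset.mem_univ _, Or.inr (Finset.mem_filter.1 hj).2⟩
        · intro j hj
          rw [Finset.mem_filter] at hj
          refine ⟨hT _ _ hj.1, ?_⟩
          rw [hj.2.1]
          exact ⟨fun _ => hab.symm, fun _ => hi⟩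
      · refine ⟨(T ((nx n).symm i)).filter (fun j => Hub a b a f j), ?_, ha _, ?_⟩
        · intro j hj
          exact Finset.mem_filter.2 ⟨Finset.mem_univ _, Or.inl (Finset.mem_filter.1 hj).2⟩
        · intro j hj
          rw [Finset.mem_filter] at hj
          refine ⟨hT _ _ hj.1, ?_⟩
          rw [hj.2.1]
          exact ⟨fun h => absurd h hi, fun h => absurd rfl h⟩)
  obtain ⟨F, h1, h2, h3, h4⟩ := even_factor hn G v hv f V hV2
    (fun i hi => (Finset.mem_filter.1 (hV1 hi)).2) hV4
  refine ⟨F, h1, h2, h3, ?_⟩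
  have h5 := Nat.mul_le_mul_right (r + 1) h4
  omega

/-- Many separated positions in a set of positions. -/
theorem exists_sep [NeZero n] (N : Finset (Fin n)) :
    ∃ T ⊆ N, (∀ i ∈ T, ∀ j ∈ T, i ≠ j → Disjoint (trip i) (trip j)) ∧
      N.card ≤ 3 * T.card + 2 := by
  classical
  set N' := N.filter (fun i : Fin n => i.val + 2 < n) with hN'
  have h1 : N.card ≤ N'.card + 2 := by
    have h2 := Finset.card_filter_add_card_filter_not (s := N) (fun i : Fin n => i.val + 2 < n)
    rw [← hN'] at h2
    have h3 : (N.filter (fun i : Fin n => ¬ i.val + 2 < n)).card ≤ 2 := by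
      have h4 : ((N.filter (fun i : Fin n => ¬ i.val + 2 < n)).image (fun i => n - 1 - i.val)) ⊆
          Finset.range 2 := by
        intro x hx
        obtain ⟨i, hi, rfl⟩ := Finset.mem_image.1 hx
        have h5 := (Finset.mem_filter.1 hi).2
        have h6 := i.isLt
        rw [Finset.mem_range]
        omega
      have h7 := Finset.card_le_card h4
      rw [Finset.card_range, Finset.card_image_of_injOn] at h7
      · exact h7
      · intro i _ j _ hij
        have h8 := i.isLt
        have h9 := j.isLt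
        apply Fin.ext
        simp only at hij
        omega
    omega
  have h2 : ∃ r ∈ Finset.range 3, N'.card ≤
      3 * (N'.filter (fun i : Fin n => i.val % 3 = r)).card := by
    have hmaps : ∀ i ∈ N', (fun i : Fin n => i.val % 3) i ∈ Finset.range 3 := by
      intro i _
      rw [Finset.mem_range]
      exact Nat.mod_lt _ (by norm_num)
    have h3 := Finset.card_eq_sum_card_fiberwise hmaps
    by_contra hcon
    push Not at hcon
    have h4 : ∑ r ∈ Finset.range 3, 3 * (N'.filter (fun i : Fin n => i.val % 3 = r)).card <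
        ∑ r ∈ Finset.range 3, N'.card :=
      Finset.sum_lt_sum_of_nonempty ⟨0, by simp⟩ hcon
    rw [← Finset.mul_sum, ← h3, Finset.sum_const, Finset.card_range, smul_eq_mul] at h4
    exact lt_irrefl _ h4
  obtain ⟨r, _, hr⟩ := h2
  refine ⟨N'.filter (fun i : Fin n => i.val % 3 = r), ?_, ?_, by omega⟩
  · exact (Finset.filter_subset _ _).trans (Finset.filter_subset _ _)
  · intro i hi j hj hij
    rw [Finset.mem_filter, hN', Finset.mem_filter] at hi hj
    have hne : i.val ≠ j.val := fun h => hij (Fin.ext h)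
    have hval : ∀ k : Fin n, k.val + 2 < n → ∀ x ∈ trip k, x.val = k.val ∨ x.val = k.val + 1 ∨
        x.val = k.val + 2 := by
      intro k hk x hx
      simp only [trip, Finset.mem_insert, Finset.mem_singleton] at hx
      rcases hx with rfl | rfl | rfl
      · exact Or.inl rfl
      · right; left
        rw [Fin.val_add, Fin.val_one', Nat.mod_eq_of_lt (a := 1) (by omega),
          Nat.mod_eq_of_lt (by omega)]
      · right; right
        have h2 : (2 : Fin n) = Fin.ofNat n 2 := rfl
        rw [h2, Fin.val_add, Fin.val_ofNat, Nat.mod_eq_of_lt (a := 2) (by omega),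
          Nat.mod_eq_of_lt (by omega)]
    rw [Finset.disjoint_left]
    intro x hx hx'
    have h3 := hval i hi.1.2 x hx
    have h4 := hval j hj.1.2 x hx'
    have h5 := hi.2
    have h6 := hj.2
    omega

end Pool.Agent.H74.EV
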