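import Mathlib

/-!
A symmetric local lemma for uniformly random labellings, in counting form.
-/

set_option linter.unusedSectionVars false

namespace Pool.Agent.H74.EV

open Finset

variable {α κ ι : Type} [Fintype α] [DecidableEq α] [Fintype κ] [DecidableEq κ] [DecidableEq ι]

/-- The set `B` of labellings depends only on the positions in `D`. -/
def DepOn (B : Finset (α → κ)) (D : Finset α) : Prop :=
  ∀ f g : α → κ, (∀ x ∈ D, f x = g x) → f ∈ B → g ∈ B

theorem indep_le (B C : Finset (α → κ)) (D : Finset α) (hB : DepOn B D)
    (hC : DepOn C (univ \ D)) :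
    (B ∩ C).card * (univ : Finset (α → κ)).card ≤ B.card * C.card := by
  rw [← card_product, ← card_product]
  apply card_le_card_of_injOn
    (fun p => ((fun x => if x ∈ D then p.1 x else p.2 x), (fun x => if x ∈ D then p.2 x else p.1 x)))
  · rintro ⟨f, g⟩ hp
    rw [mem_coe, mem_product, mem_inter] at hp
    rw [mem_coe, mem_product]
    refine ⟨hB f _ (fun x hx => by simp [hx]) hp.1.1, hC f _ (fun x hx => ?_) hp.1.2⟩
    rw [mem_sdiff] at hx
    simp [hx.2]
  · rintro ⟨f, g⟩ _ ⟨f', g'⟩ _ h
    simp only [Prod.mk.injEq] at h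
    obtain ⟨h1, h2⟩ := h
    have hf : f = f' := by
      funext x
      by_cases hx : x ∈ D
      · have := congrFun h1 x
        simpa [hx] using this
      · have := congrFun h2 x
        simpa [hx] using this
    have hg : g = g' := by
      funext x
      by_cases hx : x ∈ D
      · have := congrFun h2 x
        simpa [hx] using this
      · have := congrFun h1 x
        simpa [hx] using this
    rw [hf, hg]

/-- The labellings avoiding all `B e`, `e ∈ S`. -/
def good (B : ι → Finset (α → κ)) (S : Finset ι) : Finset (α → κ) :=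
  univ.filter (fun f => ∀ e ∈ S, f ∉ B e)

theorem mem_good {B : ι → Finset (α → κ)} {S : Finset ι} {f : α → κ} :
    f ∈ good B S ↔ ∀ e ∈ S, f ∉ B e := by
  simp [good]

theorem good_dep (B : ι → Finset (α → κ)) (D : ι → Finset α) (hD : ∀ e, DepOn (B e) (D e))
    (S : Finset ι) (E : Finset α) (hE : ∀ e ∈ S, Disjoint (D e) E) :
    DepOn (good B S) (univ \ E) := by
  intro f g hfg hf
  rw [good, mem_filter] at hf ⊢
  refine ⟨mem_univ _, ?_⟩
  intro e he hg
  apply hf.2 e he
  apply hD e g f _ hg
  intro x hx
  rw [hfg x]
  rw [mem_sdiff]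
  exact ⟨mem_univ _, fun h => Finset.disjoint_left.1 (hE e he) hx h⟩

theorem good_anti (B : ι → Finset (α → κ)) {S T : Finset ι} (h : S ⊆ T) :
    good B T ⊆ good B S := by
  intro f hf
  rw [good, mem_filter] at hf ⊢
  exact ⟨mem_univ _, fun e he => hf.2 e (h he)⟩

theorem local_step (B : ι → Finset (α → κ)) (D : ι → Finset α) (hD : ∀ e, DepOn (B e) (D e))
    (p : ℝ) (hp0 : 0 ≤ p)
    (hp : ∀ e, ((B e).card : ℝ) ≤ p * (univ : Finset (α → κ)).card) (m : ℕ)
    (hm : 4 * p * m ≤ 1) (hne : 0 < (univ : Finset (α → κ)).card)
    (hdeg : ∀ e, ∀ S : Finset ι, (S.filter (fun e' => ¬ Disjoint (D e') (D e))).card ≤ m) :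
    ∀ (k : ℕ) (S : Finset ι) (e : ι), S.card ≤ k → e ∉ S →
      ((B e ∩ good B S).card : ℝ) ≤ 2 * p * (good B S).card := by
  intro k
  have hN : (0 : ℝ) < ((univ : Finset (α → κ)).card : ℝ) := by exact_mod_cast hne
  -- the independent part
  have hind : ∀ (S : Finset ι) (e : ι), (∀ e' ∈ S, Disjoint (D e') (D e)) →
      ((B e ∩ good B S).card : ℝ) ≤ p * (good B S).card := by
    intro S e hS
    have h1 := indep_le (B e) (good B S) (D e) (hD e) (good_dep B D hD S (D e) hS)
    have h2 : ((B e ∩ good B S).card : ℝ) * ((univ : Finset (α → κ)).card : ℝ) ≤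
        ((B e).card : ℝ) * (good B S).card := by exact_mod_cast h1
    have h3 : ((B e).card : ℝ) * (good B S).card ≤
        p * ((univ : Finset (α → κ)).card : ℝ) * (good B S).card :=
      mul_le_mul_of_nonneg_right (hp e) (Nat.cast_nonneg _)
    have h4 : ((B e ∩ good B S).card : ℝ) * ((univ : Finset (α → κ)).card : ℝ) ≤
        (p * (good B S).card) * ((univ : Finset (α → κ)).card : ℝ) := by linarith
    exact le_of_mul_le_mul_right h4 hN
  induction k with
  | zero =>
    intro S e hS _
    have h0 : S = ∅ := card_eq_zero.1 (by omega)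
    subst h0
    have h1 := hind ∅ e (by simp)
    have h2 : (0 : ℝ) ≤ p * (good B ∅).card := by positivity
    linarith
  | succ k ih =>
    intro S e hS he
    set S1 := S.filter (fun e' => ¬ Disjoint (D e') (D e)) with hS1
    set S2 := S.filter (fun e' => Disjoint (D e') (D e)) with hS2
    have h1 : ((B e ∩ good B S).card : ℝ) ≤ p * (good B S2).card := by
      refine le_trans ?_ (hind S2 e (fun e' he' => (mem_filter.1 he').2))
      exact_mod_cast card_le_card (inter_subset_inter_left (good_anti B (filter_subset _ _)))
    by_cases hS10 : S1 = ∅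
    · have h2 : S2 = S := by
        rw [hS2]
        apply filter_true_of_mem
        intro e' he'
        by_contra h
        have : e' ∈ S1 := mem_filter.2 ⟨he', h⟩
        rw [hS10] at this
        exact absurd this (notMem_empty _)
      rw [h2] at h1
      have h3 : (0 : ℝ) ≤ p * (good B S).card := by positivity
      linarith
    · have hcard : S2.card ≤ k := by
        have h2 := card_filter_add_card_filter_not (s := S) (fun e' => Disjoint (D e') (D e))
        have h3 : 0 < S1.card := card_pos.2 (nonempty_iff_ne_empty.2 hS10)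
        rw [← hS2, ← hS1] at h2
        omega
      have h2 : ∀ f ∈ S1, ((B f ∩ good B S2).card : ℝ) ≤ 2 * p * (good B S2).card := by
        intro f hf
        apply ih S2 f hcard
        intro h
        exact (mem_filter.1 hf).2 (mem_filter.1 h).2
      have h3 : good B S2 ⊆ good B S ∪ S1.biUnion (fun f => B f ∩ good B S2) := by
        intro f hf
        rw [mem_union, mem_biUnion]
        by_cases h : f ∈ good B S
        · exact Or.inl h
        · right
          have h4 : ∃ e' ∈ S, f ∈ B e' := by
            by_contra hcon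
            push Not at hcon
            exact h (mem_filter.2 ⟨mem_univ _, hcon⟩)
          obtain ⟨e', he', hfe'⟩ := h4
          refine ⟨e', ?_, mem_inter.2 ⟨hfe', hf⟩⟩
          rw [hS1, mem_filter]
          refine ⟨he', ?_⟩
          intro h5
          exact (mem_filter.1 hf).2 e' (mem_filter.2 ⟨he', h5⟩) hfe'
      have h4 : ((good B S2).card : ℝ) ≤ (good B S).card +
          ∑ f ∈ S1, ((B f ∩ good B S2).card : ℝ) := by
        have h5 := (card_le_card h3).trans (card_union_le _ _)
        have h6 : (S1.biUnion (fun f => B f ∩ good B S2)).card ≤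
            ∑ f ∈ S1, (B f ∩ good B S2).card := card_biUnion_le
        have h7 : (good B S2).card ≤ (good B S).card + ∑ f ∈ S1, (B f ∩ good B S2).card := by
          omega
        exact_mod_cast h7
      have h5 : ∑ f ∈ S1, ((B f ∩ good B S2).card : ℝ) ≤ m * (2 * p * (good B S2).card) := by
        calc ∑ f ∈ S1, ((B f ∩ good B S2).card : ℝ) ≤ ∑ f ∈ S1, 2 * p * (good B S2).card :=
              sum_le_sum h2
          _ = S1.card * (2 * p * (good B S2).card) := by rw [sum_const, nsmul_eq_mul]
          _ ≤ m * (2 * p * (good B S2).card) := by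
              apply mul_le_mul_of_nonneg_right
              · exact_mod_cast hdeg e S
              · positivity
      have h6 : (m : ℝ) * (2 * p * (good B S2).card) ≤ (good B S2).card / 2 := by
        have h7 := mul_le_mul_of_nonneg_right hm
          (by positivity : (0 : ℝ) ≤ ((good B S2).card : ℝ) / 2)
        nlinarith
      have h8 : ((good B S2).card : ℝ) ≤ 2 * (good B S).card := by linarith
      calc ((B e ∩ good B S).card : ℝ) ≤ p * (good B S2).card := h1
        _ ≤ p * (2 * (good B S).card) := mul_le_mul_of_nonneg_left h8 hp0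
        _ = 2 * p * (good B S).card := by ring

/-- The symmetric local lemma. -/
theorem local_lemma (B : ι → Finset (α → κ)) (D : ι → Finset α) (hD : ∀ e, DepOn (B e) (D e))
    (p : ℝ) (hp0 : 0 ≤ p)
    (hp : ∀ e, ((B e).card : ℝ) ≤ p * (univ : Finset (α → κ)).card) (m : ℕ) (hm1 : 1 ≤ m)
    (hm : 4 * p * m ≤ 1) (hne : 0 < (univ : Finset (α → κ)).card)
    (hdeg : ∀ e, ∀ S : Finset ι, (S.filter (fun e' => ¬ Disjoint (D e') (D e))).card ≤ m)
    (S : Finset ι) : (good B S).Nonempty := by
  rw [← card_pos]
  have hp4 : 4 * p ≤ 1 := by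
    have h1 : (1 : ℝ) ≤ m := by exact_mod_cast hm1
    nlinarith
  induction S using Finset.induction_on with
  | empty =>
    have : good B (∅ : Finset ι) = univ := by
      ext f
      simp [good]
    rw [this]
    exact hne
  | insert e S he ih =>
    have h1 := local_step B D hD p hp0 hp m hm hne hdeg S.card S e le_rfl he
    have h2 : good B S ⊆ good B (insert e S) ∪ (B e ∩ good B S) := by
      intro f hf
      rw [mem_union, mem_inter]
      by_cases h : f ∈ B e
      · exact Or.inr ⟨h, hf⟩
      · left
        rw [good, mem_filter] at hf ⊢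
        refine ⟨mem_univ _, ?_⟩
        intro e' he'
        rw [mem_insert] at he'
        rcases he' with rfl | h'
        · exact h
        · exact hf.2 e' h'
    have h3 := (card_le_card h2).trans (card_union_le _ _)
    have h4 : ((good B S).card : ℝ) ≤ (good B (insert e S)).card + (B e ∩ good B S).card := by
      exact_mod_cast h3
    have h5 : (0 : ℝ) < (good B S).card := by exact_mod_cast ih
    have h6 : (0 : ℝ) < (good B (insert e S)).card := by nlinarith
    exact_mod_cast h6

end Pool.Agent.H74.EV
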