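import Mathlib
import Pool.Agent.H74.EV.Many
import Pool.Agent.H74.EV.Loc

/-!
Labellings in which every position sees many hubs of both kinds, by the local lemma.
-/

namespace Pool.Agent.H74.EV

open Finset

variable {n q : ℕ}

theorem hubs_congr [NeZero n] {a b c : Fin q} {T : Finset (Fin n)} {f g : Fin n → Fin q}
    (h : ∀ x ∈ T.biUnion trip, f x = g x) : hubs a b c T f = hubs a b c T g := by
  unfold hubs
  congr 1
  apply filter_congr
  intro j hj
  apply Hub.congr
  intro k hk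
  exact h k (mem_biUnion.2 ⟨j, hj, hk⟩)

/-- the positions whose triple contains `z` -/
def back [NeZero n] (z : Fin n) : Finset (Fin n) := {z, z - 1, z - 2}

theorem card_back [NeZero n] (z : Fin n) : (back z).card ≤ 3 := card_le_three

theorem card_trip [NeZero n] (z : Fin n) : (trip z).card ≤ 3 := card_le_three

theorem mem_back [NeZero n] {z i : Fin n} (h : z ∈ trip i) : i ∈ back z := by
  simp only [trip, mem_insert, mem_singleton] at h
  simp only [back, mem_insert, mem_singleton]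
  rcases h with rfl | rfl | rfl
  · exact Or.inl rfl
  · right; left; rw [add_sub_cancel_right]
  · right; right; rw [add_sub_cancel_right]

theorem exists_label_local [NeZero n] (hn : 3 ≤ n) {a b : Fin q} (hab : a ≠ b)
    (N : Fin n → Finset (Fin n)) (hsymm : ∀ x y, y ∈ N x → x ∈ N y) (Δ : ℕ) (hΔ : 1 ≤ Δ)
    (hN : ∀ x, (N x).card ≤ Δ)
    (T : Fin n → Finset (Fin n)) (hTN : ∀ x, T x ⊆ N x) (t r : ℕ) (ht1 : 1 ≤ t)
    (hT : ∀ x, ∀ i ∈ T x, ∀ j ∈ T x, i ≠ j → Disjoint (trip i) (trip j))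
    (ht : ∀ x, (T x).card = t)
    (hnum : 72 * (t : ℝ) * Δ * (2 ^ r * (1 - ((q : ℝ) - 2) ^ 2 / (q : ℝ) ^ 3 / 2) ^ t) ≤ 1) :
    ∃ f : Fin n → Fin q, (∀ x, r ≤ hubs a b a (T x) f) ∧ (∀ x, r ≤ hubs a b b (T x) f) := by
  classical
  set ρ : ℝ := 2 ^ r * (1 - ((q : ℝ) - 2) ^ 2 / (q : ℝ) ^ 3 / 2) ^ t with hρ
  have hq2 : 2 ≤ q := by
    have := card_low hab
    omega
  have hq' : (2 : ℝ) ≤ q := by exact_mod_cast hq2
  have hp1 : ((q : ℝ) - 2) ^ 2 / (q : ℝ) ^ 3 ≤ 1 := by
    rw [div_le_one (by positivity)]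
    nlinarith [sq_nonneg ((q : ℝ) - 2), mul_nonneg (by linarith : (0 : ℝ) ≤ q - 1) (sq_nonneg (q : ℝ))]
  have hρ0 : 0 ≤ ρ := by
    rw [hρ]
    apply mul_nonneg (by positivity)
    apply pow_nonneg
    linarith
  have hcard : (univ : Finset (Fin n → Fin q)).card = q ^ n := by
    rw [card_univ, Fintype.card_fun, Fintype.card_fin, Fintype.card_fin]
  let lab : Bool → Fin q := fun c => if c then a else b
  let B : Fin n × Bool → Finset (Fin n → Fin q) := fun e =>
    univ.filter (fun f => hubs a b (lab e.2) (T e.1) f < r)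
  let D : Fin n × Bool → Finset (Fin n) := fun e => (T e.1).biUnion trip
  have hD : ∀ e, DepOn (B e) (D e) := by
    intro e f g hfg hf
    rw [mem_filter] at hf ⊢
    refine ⟨mem_univ _, ?_⟩
    rw [← hubs_congr hfg]
    exact hf.2
  have hp : ∀ e, ((B e).card : ℝ) ≤ ρ * (univ : Finset (Fin n → Fin q)).card := by
    intro e
    have h1 := count_few hn hab (lab e.2) (T e.1) (hT e.1) r t (ht e.1).ge
    rw [hcard]
    push_cast
    exact h1
  have hne : 0 < (univ : Finset (Fin n → Fin q)).card := by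
    rw [hcard]
    exact pow_pos (by omega) n
  have hdeg : ∀ e, ∀ S : Finset (Fin n × Bool),
      (S.filter (fun e' => ¬ Disjoint (D e') (D e))).card ≤ 18 * t * Δ := by
    intro e S
    have hsub : S.filter (fun e' => ¬ Disjoint (D e') (D e)) ⊆
        (T e.1).biUnion (fun i => (trip i).biUnion (fun z => (back z).biUnion
          (fun i' => (N i') ×ˢ (univ : Finset Bool)))) := by
      intro e' he'
      obtain ⟨_, h1⟩ := mem_filter.1 he'
      rw [Finset.not_disjoint_iff] at h1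
      obtain ⟨z, hz1, hz2⟩ := h1
      obtain ⟨i', hi', hzi'⟩ := mem_biUnion.1 hz1
      obtain ⟨i, hi, hzi⟩ := mem_biUnion.1 hz2
      refine mem_biUnion.2 ⟨i, hi, mem_biUnion.2 ⟨z, hzi, mem_biUnion.2 ⟨i', mem_back hzi', ?_⟩⟩⟩
      rw [mem_product]
      exact ⟨hsymm _ _ (hTN _ hi'), mem_univ _⟩
    refine (card_le_card hsub).trans ?_
    have h1 : ∀ i' : Fin n, ((N i') ×ˢ (univ : Finset Bool)).card ≤ Δ * 2 := by
      intro i'
      rw [card_product, card_univ, Fintype.card_bool]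
      exact Nat.mul_le_mul_right _ (hN i')
    have h2 : ∀ z : Fin n, ((back z).biUnion (fun i' => (N i') ×ˢ (univ : Finset Bool))).card ≤
        3 * (Δ * 2) := by
      intro z
      refine (card_biUnion_le_card_mul _ _ (Δ * 2) (fun i' _ => h1 i')).trans ?_
      exact Nat.mul_le_mul_right _ (card_back z)
    have h3 : ∀ i : Fin n, ((trip i).biUnion (fun z => (back z).biUnion
        (fun i' => (N i') ×ˢ (univ : Finset Bool)))).card ≤ 3 * (3 * (Δ * 2)) := by
      intro i
      refine (card_biUnion_le_card_mul _ _ (3 * (Δ * 2)) (fun z _ => h2 z)).trans ?_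
      exact Nat.mul_le_mul_right _ (card_trip i)
    refine (card_biUnion_le_card_mul _ _ (3 * (3 * (Δ * 2))) (fun i _ => h3 i)).trans ?_
    rw [ht]
    apply le_of_eq
    ring
  have hm1 : 1 ≤ 18 * t * Δ := by
    have : 0 < 18 * t * Δ := by positivity
    omega
  obtain ⟨f, hf⟩ := local_lemma B D hD ρ hρ0 hp (18 * t * Δ) hm1 (by
    push_cast
    calc 4 * ρ * (18 * (t : ℝ) * Δ) = 72 * (t : ℝ) * Δ * ρ := by ring
      _ ≤ 1 := hnum) hne hdeg univ
  rw [mem_good] at hf
  refine ⟨f, ?_, ?_⟩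
  · intro x
    by_contra h
    exact hf (x, true) (mem_univ _) (mem_filter.2 ⟨mem_univ _, not_le.1 h⟩)
  · intro x
    by_contra h
    exact hf (x, false) (mem_univ _) (mem_filter.2 ⟨mem_univ _, not_le.1 h⟩)

end Pool.Agent.H74.EV
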